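import Pool.Agent.H58.T1.S1

/-!
# T1: the elements of a residue class (GRC)
-/

set_option autoImplicit false

namespace Pool.T1

open Polynomial Matrix Pool.HYP Pool.TOW Pool.AVS IsDedekindDomain

namespace GRCa

section

variable {R : Type} [CommRing R] {K : Type} [Field K] [Algebra R K] {O : ValuationSubring K} {π : K}

private lemma lm_sub {m : ℤ} {a b : R} (ha : a ∈ Lm R O π m) (hb : b ∈ Lm R O π m) :
    a - b ∈ Lm R O π m := by
  simp only [Lm, Set.mem_setOf_eq, map_sub, sub_mul] at *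
  exact sub_mem ha hb

private lemma lm_zero (m : ℤ) : (0 : R) ∈ Lm R O π m := by
  simp only [Lm, Set.mem_setOf_eq, map_zero, zero_mul]
  exact zero_mem O

/-- A residue class has at most as many elements as the ideal. -/
private lemma class_le (I : Ideal R) (m : ℤ) (r : R) (hf : (Lm R O π m).Finite) :
    {a ∈ Lm R O π m | a - r ∈ I}.ncard ≤ (LI R O π I m).ncard := by
  rcases Set.eq_empty_or_nonempty {a ∈ Lm R O π m | a - r ∈ I} with h | ⟨b, hb⟩
  · rw [h, Set.ncard_empty]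
    exact Nat.zero_le _
  · refine Set.ncard_le_ncard_of_injOn (fun a => a - b) ?_ ?_ (hf.subset fun a ha => ha.1)
    · intro a ha
      refine ⟨lm_sub ha.1 hb.1, ?_⟩
      have h1 : a - b = (a - r) - (b - r) := by ring
      change a - b ∈ I
      rw [h1]
      exact I.sub_mem ha.2 hb.2
    · intro a _ c _ hac
      exact sub_left_inj.mp hac

/-- The number of elements of `L(m)`. -/
private lemma lm_le (I : Ideal R) (m : ℤ) (hf : (Lm R O π m).Finite) (hI : Finite (R ⧸ I)) :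
    (Lm R O π m).ncard ≤ Nat.card (R ⧸ I) * (LI R O π I m).ncard := by
  classical
  haveI : Fintype (R ⧸ I) := Fintype.ofFinite _
  rw [Set.ncard_eq_toFinset_card _ hf]
  have h1 := Finset.card_le_mul_card_image (f := Ideal.Quotient.mk I) hf.toFinset
    (LI R O π I m).ncard ?_
  · refine h1.trans ?_
    rw [mul_comm]
    refine Nat.mul_le_mul_right _ ?_
    rw [Nat.card_eq_fintype_card]
    exact Finset.card_le_univ _
  · intro q hq
    obtain ⟨r, hr, rfl⟩ := Finset.mem_image.mp hq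
    refine le_trans ?_ (class_le I m r hf)
    rw [← Set.ncard_coe_finset]
    refine Set.ncard_le_ncard ?_ (hf.subset fun a ha => ha.1)
    intro a ha
    rw [Finset.coe_filter] at ha
    refine ⟨(hf.mem_toFinset).mp ha.1, ?_⟩
    exact (Ideal.Quotient.mk_eq_mk_iff_sub_mem a r).mp ha.2

end

section

variable {R : Type} [CommRing R] [IsDedekindDomain R] {K : Type} [Field K] [Algebra R K]
    [IsFractionRing R K] {O : ValuationSubring K} {π : K}

/-- Steps. -/
private lemma steps (hS : STPStmt) (hG : GR R O π) (I : Ideal R) (m : ℤ) (k : ℕ) :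
    (LI R O π I (m + k)).ncard ≤ qq O ^ k * (LI R O π I m).ncard := by
  induction k with
  | zero => simp
  | succ k ih =>
    have h1 := (hS R K O π hG I (m + (k + 1 : ℕ))).1
    have h2 : m + ((k + 1 : ℕ) : ℤ) - 1 = m + k := by push_cast; ring
    rw [h2] at h1
    calc (LI R O π I (m + ((k + 1 : ℕ) : ℤ))).ncard ≤ qq O * (LI R O π I (m + k)).ncard := h1
      _ ≤ qq O * (qq O ^ k * (LI R O π I m).ncard) := Nat.mul_le_mul_left _ ih
      _ = qq O ^ (k + 1) * (LI R O π I m).ncard := by ring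

/-- The main estimate. -/
private lemma main (hA : GRAStmt) (hS : STPStmt) (hD : GRDStmt) (hG : GR R O π) (I : Ideal R)
    (m : ℕ) (hI : I ≠ ⊥) (a : R) (ha : a ≠ 0) (haI : a ∈ LI R O π I (m : ℤ)) :
    Nat.card (R ⧸ I) * (LI R O π I (m : ℤ)).ncard ≤ qq O ^ (m + 1) := by
  classical
  have hex : ∃ n : ℕ, ∃ b : R, b ≠ 0 ∧ b ∈ LI R O π I (n : ℤ) := ⟨m, a, ha, haI⟩
  obtain ⟨b, hb, hbI⟩ := Nat.find_spec hex
  set n0 := Nat.find hex with hn0
  have hmin : ∀ n : ℕ, n < n0 → ∀ c : R, c ∈ LI R O π I (n : ℤ) → c = 0 := by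
    intro n hn c hc
    by_contra hc0
    exact Nat.find_min hex hn ⟨c, hc0, hc⟩
  have hn0m : n0 ≤ m := Nat.find_min' hex ⟨a, ha, haI⟩
  obtain ⟨n, -, -, hcard, hiff⟩ := hD R K O π hG b hb
  have hn : n ≤ n0 := by
    have h1 := (hiff (n0 : ℤ)).mp hbI.1
    exact_mod_cast h1
  haveI := hG.fin I hI
  haveI : Finite (R ⧸ Ideal.span {b}) := hG.fin _ (by
    rw [Ne, Ideal.span_singleton_eq_bot]
    exact hb)
  have hle : Nat.card (R ⧸ I) ≤ qq O ^ n := by
    rw [← hcard]
    have hsub : Ideal.span {b} ≤ I := (Ideal.span_singleton_le_iff_mem I).mpr hbI.2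
    exact Nat.card_le_card_of_surjective _ (Ideal.Quotient.factor_surjective hsub)
  have hQ : 1 ≤ qq O := le_trans (by norm_num) (hA R K O π hG).1
  have h1 : (LI R O π I ((n0 : ℤ) - 1)).ncard ≤ 1 := by
    have h2 : LI R O π I ((n0 : ℤ) - 1) ⊆ {0} := by
      intro c hc
      rcases Nat.eq_zero_or_pos n0 with h0 | h0
      · have h3 := (hA R K O π hG).2.2.1 ((n0 : ℤ) - 1) (by rw [h0]; norm_num)
        have h4 : c ∈ Lm R O π ((n0 : ℤ) - 1) := hc.1
        rw [h3] at h4
        exact h4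
      · refine hmin (n0 - 1) (by omega) c ?_
        have h3 : ((n0 - 1 : ℕ) : ℤ) = (n0 : ℤ) - 1 := by omega
        rw [h3]
        exact hc
    calc (LI R O π I ((n0 : ℤ) - 1)).ncard ≤ ({0} : Set R).ncard :=
          Set.ncard_le_ncard h2 (Set.finite_singleton 0)
      _ = 1 := Set.ncard_singleton 0
  have h2 := steps hS hG I ((n0 : ℤ) - 1) (m + 1 - n0)
  have h3 : (n0 : ℤ) - 1 + ((m + 1 - n0 : ℕ) : ℤ) = m := by omega
  rw [h3] at h2
  calc Nat.card (R ⧸ I) * (LI R O π I (m : ℤ)).ncard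
      ≤ qq O ^ n * (qq O ^ (m + 1 - n0) * 1) :=
        Nat.mul_le_mul hle (h2.trans (Nat.mul_le_mul_left _ h1))
    _ ≤ qq O ^ n0 * (qq O ^ (m + 1 - n0) * 1) :=
        Nat.mul_le_mul_right _ (Nat.pow_le_pow_right hQ hn)
    _ = qq O ^ (m + 1) := by
        rw [mul_one, ← pow_add]
        congr 1
        omega

end

end GRCa

theorem grc (hA : GRAStmt) (hS : STPStmt) (hD : GRDStmt) : GRCStmt := by
  intro R _ _ K _ _ _ O π hG I m r hI
  haveI := hG.fin I hI
  have hf : (Lm R O π (m : ℤ)).Finite := ((hA R K O π hG).2.1 m).1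
  have hfI : (LI R O π I (m : ℤ)).Finite := hf.subset fun a ha => ha.1
  have key : (LI R O π I (m : ℤ)).ncard ≤ 1 ∨
      Nat.card (R ⧸ I) * (LI R O π I (m : ℤ)).ncard ≤ qq O ^ (m + 1) := by
    by_cases h : ∃ a : R, a ≠ 0 ∧ a ∈ LI R O π I (m : ℤ)
    · obtain ⟨a, ha, haI⟩ := h
      exact Or.inr (GRCa.main hA hS hD hG I m hI a ha haI)
    · left
      have h2 : LI R O π I (m : ℤ) ⊆ {0} := by
        intro c hc
        by_contra hc0
        exact h ⟨c, hc0, hc⟩
      calc (LI R O π I (m : ℤ)).ncard ≤ ({0} : Set R).ncard :=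
            Set.ncard_le_ncard h2 (Set.finite_singleton 0)
        _ = 1 := Set.ncard_singleton 0
  refine ⟨?_, ?_, GRCa.lm_le I m hf inferInstance⟩
  · have h1 := GRCa.class_le I m r hf
    rcases key with h | h
    · calc {a ∈ Lm R O π (m : ℤ) | a - r ∈ I}.ncard * Nat.card (R ⧸ I)
          ≤ 1 * Nat.card (R ⧸ I) := Nat.mul_le_mul_right _ (h1.trans h)
        _ ≤ Nat.card (R ⧸ I) + qq O ^ (m + 1) := by omega
    · calc {a ∈ Lm R O π (m : ℤ) | a - r ∈ I}.ncard * Nat.card (R ⧸ I)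
          ≤ (LI R O π I (m : ℤ)).ncard * Nat.card (R ⧸ I) := Nat.mul_le_mul_right _ h1
        _ = Nat.card (R ⧸ I) * (LI R O π I (m : ℤ)).ncard := mul_comm _ _
        _ ≤ Nat.card (R ⧸ I) + qq O ^ (m + 1) := h.trans (Nat.le_add_left _ _)
  · intro hle
    rcases key with h | h
    · calc Nat.card (R ⧸ I) * (LI R O π I (m : ℤ)).ncard ≤ Nat.card (R ⧸ I) * 1 :=
            Nat.mul_le_mul_left _ h
        _ ≤ qq O ^ (m + 1) := by rw [mul_one]; exact hle
    · exact h

end Pool.T1
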