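import Pool.Agent.H14.T1.S3

/-!
# T1: the transferred form at infinity (BDI)
-/

set_option autoImplicit false

namespace Pool.T1

open Polynomial Matrix Pool.HYP Pool.TOW Pool.AVS IsDedekindDomain

namespace BDIa

/-- A common multiple. -/
private lemma common {K : Type} [Field K] (O : ValuationSubring K) {ι : Type} [Fintype ι]
    (y : ι → K) (hy : ∀ i, y i ≠ 0) : ∃ b : K, b ≠ 0 ∧ ∀ i, b / y i ∈ O := by
  classical
  let z : ι → K := fun i => if y i ∈ O then y i else 1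
  have hz0 : ∀ i, z i ≠ 0 := by
    intro i
    by_cases h : y i ∈ O
    · simp only [z, h, if_true]
      exact hy i
    · simp only [z, h, if_false]
      exact one_ne_zero
  have hz : ∀ i, z i ∈ O := by
    intro i
    by_cases h : y i ∈ O
    · simp only [z, h, if_true]
    · simp only [z, h, if_false]
      exact one_mem O
  refine ⟨∏ i, z i, Finset.prod_ne_zero_iff.mpr fun i _ => hz0 i, fun i => ?_⟩
  by_cases h : y i ∈ O
  · have h1 : z i = y i := by simp only [z, h, if_true]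
    rw [← Finset.mul_prod_erase Finset.univ z (Finset.mem_univ i), h1,
      mul_div_assoc, mul_comm, div_mul_cancel₀ _ (hy i)]
    exact prod_mem fun j _ => hz j
  · have h2 : (y i)⁻¹ ∈ O := (O.mem_or_inv_mem (y i)).resolve_left h
    rw [div_eq_mul_inv]
    exact mul_mem (prod_mem fun j _ => hz j) h2

end BDIa

theorem bdi (hH : HYBStmt) (hI : IPVStmt) (hT : TRFStmt) (hO : OINStmt) : BDIStmt := by
  classical
  intro F _ _ h2 K _ _ _ _ O hOP n N ω A B hA hB hBd hN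
  obtain ⟨hT1, hT2, hT3, hT4, hT5, -, -, -, -⟩ := hT (RatFunc F) K n N ω
  obtain ⟨-, hO2, -⟩ := hO F K O hOP
  obtain ⟨-, Oi, hOi, hU, -⟩ := hI F
  have h2R : (2 : RatFunc F) ≠ 0 := by
    rw [← map_ofNat (algebraMap F (RatFunc F)) 2]
    exact (map_ne_zero_iff _ (algebraMap F (RatFunc F)).injective).mpr h2
  have hB' : (trm ω B)ᵀ = trm ω B := hT5 B hB
  have hBd' : (trm ω B).det ≠ 0 := by
    rw [hT2]
    exact mul_ne_zero (pow_ne_zero _ hT4) (Algebra.norm_ne_zero_iff.mpr hBd)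
  obtain ⟨a, ha, hg⟩ := hH (RatFunc F) Oi (Fin N × Fin n) (trm ω B) h2R
    ⟨(RatFunc.X)⁻¹, hU.1, hU.2.1, hU.2.2.1⟩ hB' hBd'
  set aK : K := algebraMap (RatFunc F) K a with haK
  have haK0 : aK ≠ 0 := (map_ne_zero_iff _ (algebraMap (RatFunc F) K).injective).mpr ha
  obtain ⟨b, hb, hb1⟩ := BDIa.common O (fun p : Fin n × Fin n => aK / (ω p.1 * ω p.2))
    (fun p => div_ne_zero haK0 (mul_ne_zero (ω.ne_zero _) (ω.ne_zero _)))
  obtain ⟨k, hk, hk1⟩ := hN b hb
  have hA1 : (kᵀ * A * k)ᵀ = kᵀ * A * k := by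
    rw [Matrix.transpose_mul, Matrix.transpose_mul, Matrix.transpose_transpose, hA, Matrix.mul_assoc]
  obtain ⟨g', hg'd, hg'⟩ := hg (trm ω (kᵀ * A * k)) (hT5 _ hA1) (by
    intro p q
    have h3 : (trm ω (kᵀ * A * k) p q - trm ω B p q) / a =
        Algebra.trace (RatFunc F) K
          ((b / (aK / (ω p.2 * ω q.2))) * (((kᵀ * A * k) p.1 q.1 - B p.1 q.1) / b)) := by
      have h4 : (b / (aK / (ω p.2 * ω q.2))) * (((kᵀ * A * k) p.1 q.1 - B p.1 q.1) / b) =
          a⁻¹ • (ω p.2 * ω q.2 * (kᵀ * A * k) p.1 q.1 - ω p.2 * ω q.2 * B p.1 q.1) := by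
        have h5 := ω.ne_zero p.2
        have h6 := ω.ne_zero q.2
        rw [Algebra.smul_def, map_inv₀, ← haK]
        field_simp
      rw [h4, map_smul, map_sub, smul_eq_mul]
      simp only [trm, Matrix.of_apply]
      rw [div_eq_inv_mul]
    rw [h3]
    have h7 := hO2 _ (mul_mem (hb1 (p.2, q.2)) (hk1 p.1 q.1))
    rw [← hOi] at h7
    exact h7)
  refine ⟨Matrix.fromBlocks (lmm ω k) 0 0 1 * g', ?_, ?_⟩
  · rw [Matrix.det_mul, Matrix.det_fromBlocks_zero₂₁, Matrix.det_one, mul_one, hT3]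
    exact mul_ne_zero (Algebra.norm_ne_zero_iff.mpr hk) hg'd
  · rw [hOi] at hg'
    have h8 : (Matrix.fromBlocks (lmm ω k) 0 0 1 * g')ᵀ *
        Matrix.fromBlocks (trm ω A) 0 0 (-trm ω B) * (Matrix.fromBlocks (lmm ω k) 0 0 1 * g') =
        g'ᵀ * Matrix.fromBlocks (trm ω (kᵀ * A * k)) 0 0 (-trm ω B) * g' := by
      rw [← hT1 A k, Matrix.transpose_mul, Matrix.fromBlocks_transpose]
      have h9 : Matrix.fromBlocks ((lmm ω k)ᵀ) 0 0 1 *
          Matrix.fromBlocks (trm ω A) 0 0 (-trm ω B) * Matrix.fromBlocks (lmm ω k) 0 0 1 =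
          Matrix.fromBlocks ((lmm ω k)ᵀ * trm ω A * lmm ω k) 0 0 (-trm ω B) := by
        rw [Matrix.fromBlocks_multiply, Matrix.fromBlocks_multiply]
        simp
      rw [← h9]
      simp only [Matrix.transpose_zero, Matrix.transpose_one, Matrix.mul_assoc]
    rw [h8]
    exact hg'

end Pool.T1
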